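import Pool.Agent.Lib_helper97.Ebe.XDefs

namespace Pool.Agent.Lib_helper97.Ebe

open MvPolynomial Module Pool.Agent.Lib_helper26.Ebe Pool.Agent.Lib_helper26.SOS

variable {n m : ℕ}

theorem wN1_pr {κ a c : ℕ} (hκ : κ ≤ n) (hc : c < a) (hac : a + c ≤ κ)
    (h1 : κ * n ≤ m + a.choose 2 + (c + 1).choose 2) (h2 : m + a.choose 2 ≤ κ * n) :
    Val n m := by
  obtain ⟨c', t, h3, h4, h5⟩ := exists_act (d := κ * n - (m + a.choose 2)) (M := c) (by omega)
  right
  exact ⟨κ, a, c', t, h4, by omega, by omega, hκ, by omega⟩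

theorem wN_ch (a : ℕ) : (a + 1).choose 2 = a.choose 2 + a := by
  rw [Nat.choose_succ_succ' a 1, Nat.choose_one_right, add_comm]

theorem wN_ch2 (a : ℕ) : 2 * a.choose 2 + a = a * a := by
  induction a with
  | zero => simp
  | succ a ih =>
    rw [wN_ch]
    nlinarith

theorem wN_tri (s : ℕ) : ∃ a, 1 ≤ a ∧ a.choose 2 ≤ s ∧ s < a.choose 2 + a := by
  induction s with
  | zero => exact ⟨1, le_rfl, by simp, by simp⟩
  | succ s ih =>
    obtain ⟨a, h1, h2, h3⟩ := ih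
    rcases Nat.lt_or_ge (s + 1) (a.choose 2 + a) with h | h
    · exact ⟨a, h1, by omega, h⟩
    · refine ⟨a + 1, by omega, ?_, ?_⟩
      · rw [wN_ch]; omega
      · rw [wN_ch]; omega

/-- if `s ≤ κ² / 4` then `κ n - s` is a value -/
theorem wN_claim {κ s : ℕ} (hκ : κ ≤ n) (hκ1 : 1 ≤ κ) (hs : m + s = κ * n)
    (h4 : 4 * s ≤ κ * κ) : Val n m := by
  obtain ⟨a, ha1, ha2, ha3⟩ := wN_tri s
  have e1 := wN_ch2 a
  rcases Nat.lt_or_ge (κ + 1) (2 * a) with h | h
  · -- x = κ - a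
    have hax : a ≤ κ := by
      by_contra hlt
      have hlt : κ < a := by omega
      -- 2 s ≥ a^2 - a ≥ κ (κ+1), but 4 s ≤ κ^2
      have h5 : (κ + 1) * κ ≤ a * (a - 1) := Nat.mul_le_mul (by omega) (by omega)
      have h6 : a * (a - 1) + a = a * a := by
        obtain ⟨b, rfl⟩ : ∃ b, a = b + 1 := ⟨a - 1, by omega⟩
        simp only [Nat.add_sub_cancel]
        ring
      nlinarith
    obtain ⟨x, hx⟩ : ∃ x, κ = a + x := ⟨κ - a, by omega⟩
    refine wN1_pr (κ := κ) (a := a) (c := x) hκ (by omega) (by omega) ?_ (by omega)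
    rw [wN_ch]
    have e2 := wN_ch2 x
    have h7 : s ≤ a.choose 2 + (x.choose 2 + x) := by
      obtain ⟨y, hy⟩ : ∃ y, a = x + 2 + y := ⟨a - (x + 2), by omega⟩
      subst hx
      subst hy
      nlinarith [Nat.zero_le (y * y), Nat.zero_le y]
    omega
  · refine wN1_pr (κ := κ) (a := a) (c := a - 1) hκ (by omega) (by omega) ?_ (by omega)
    rw [show a - 1 + 1 = a by omega]
    rcases Nat.lt_or_ge a 2 with h5 | h5
    · obtain rfl : a = 1 := by omega
      simp at ha3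
      omega
    · have h6 : a ≤ a.choose 2 + 1 := by
        nlinarith
      omega

/-- smallest multiple of `n` above `m` -/
theorem wN_ceil (hn : 1 ≤ n) (hm : 1 ≤ m) : ∃ κ s, 1 ≤ κ ∧ m + s = κ * n ∧ s + 1 ≤ n := by
  refine ⟨(m + n - 1) / n, (m + n - 1) / n * n - m, ?_, ?_, ?_⟩
  · exact Nat.div_pos (by omega) hn
  · have h1 := Nat.div_add_mod (m + n - 1) n
    have h2 := Nat.mod_lt (m + n - 1) hn
    rw [mul_comm] at h1
    omega
  · have h1 := Nat.div_add_mod (m + n - 1) n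
    rw [mul_comm] at h1
    omega

theorem wN2_pr (h : 4 * n ^ 3 ≤ m ^ 2) (h2 : m ≤ n * n) : Val n m := by
  rcases Nat.eq_zero_or_pos m with h0 | hm
  · left; exact h0
  have hn : 1 ≤ n := by
    by_contra hlt
    obtain rfl : n = 0 := by omega
    simp at h2
    omega
  obtain ⟨κ, s, h1, hs, hsn⟩ := wN_ceil hn hm
  have hκn : κ ≤ n := by
    by_contra hlt
    have : (n + 1) * n ≤ κ * n := Nat.mul_le_mul_right n (by omega)
    nlinarith
  refine wN_claim hκn h1 hs ?_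
  -- m ≤ κ n, m^2 ≤ κ^2 n^2 , 4 n^3 ≤ κ^2 n^2
  have h5 : m ^ 2 ≤ (κ * n) ^ 2 := Nat.pow_le_pow_left (by omega) 2
  have h6 : 4 * n ≤ κ * κ := by
    have h7 : (4 * n) * n ^ 2 ≤ (κ * κ) * n ^ 2 := by nlinarith
    exact Nat.le_of_mul_le_mul_right h7 (by positivity)
  omega

theorem wN_mid (hn : 1 ≤ n) (h : n * (n + 1) ≤ 2 * m) (h2 : m ≤ n * n) : Val n m := by
  have hm : 1 ≤ m := by nlinarith
  obtain ⟨κ, s, h1, hs, hsn⟩ := wN_ceil hn hm
  have hκn : κ ≤ n := by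
    by_contra hlt
    have : (n + 1) * n ≤ κ * n := Nat.mul_le_mul_right n (by omega)
    nlinarith
  refine wN_claim hκn h1 hs ?_
  -- 2 κ n = 2 m + 2 s ≥ n (n+1) + 2 s
  have h3 : n * (n + 1) + 2 * s ≤ (2 * κ) * n := by nlinarith
  have h4 : n + 1 ≤ 2 * κ := by
    by_contra hlt
    have : (2 * κ) * n ≤ n * n := Nat.mul_le_mul_right n (by omega)
    nlinarith
  rcases Nat.lt_or_ge (n + 1) (2 * κ) with h5 | h5
  · rcases Nat.lt_or_ge (n + 2) (2 * κ) with h6 | h6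
    · -- 2κ ≥ n+3, 16 s ≤ 16 (n-1) ≤ (n+3)^2 ≤ 4 κ^2
      have h7 : (n + 3) * (n + 3) ≤ (2 * κ) * (2 * κ) := Nat.mul_le_mul (by omega) (by omega)
      have h8 : 16 * n ≤ (n + 3) * (n + 3) + 16 := by
        have : (n : ℤ) * n - 10 * n + 25 ≥ 0 := by nlinarith [sq_nonneg ((n : ℤ) - 5)]
        zify
        nlinarith
      nlinarith
    · -- 2κ = n+2
      have h7 : 2 * κ = n + 2 := by omega
      rw [h7] at h3
      have h8 : 2 * s ≤ n := by nlinarith
      have h9 : 8 * n ≤ (n + 2) * (n + 2) := by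
        have : (n : ℤ) * n - 4 * n + 4 ≥ 0 := by nlinarith [sq_nonneg ((n : ℤ) - 2)]
        zify
        nlinarith
      rw [← h7] at h9
      nlinarith
  · have h7 : 2 * κ = n + 1 := by omega
    rw [h7] at h3
    have h8 : 2 * s ≤ 0 := by nlinarith
    obtain rfl : s = 0 := by omega
    simp

theorem wN3_pr (hn : 7 ≤ n) (h : n * (n + 1) ≤ 2 * m) : m ∈ S 1 n := by
  have e := wN_ch2 (n + 1)
  have hN : 2 * (n + 1).choose 2 = n * (n + 1) := by nlinarith
  refine mem_of_interval (n := n) (N := (n + 1).choose 2) (by omega) ?_ m (by omega)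
  intro m' h1 h2
  refine mem_of_val (wN_mid (by omega) (by omega) ?_)
  nlinarith

end Pool.Agent.Lib_helper97.Ebe
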