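import Pool.Agent.Lib_helper97.Ebe.XOK

namespace Pool.Agent.Lib_helper97.Ebe

open MvPolynomial Module Pool.Agent.Lib_helper26.Ebe Pool.Agent.Lib_helper26.SOS

variable {n m D ρ : ℕ} {p : Fin m → MvPolynomial (Fin n) ℂ}
    {A : MvPolynomial (Fin n ⊕ Fin n) ℂ} {V : Submodule ℂ (MvPolynomial (Fin n) ℂ)}
    {f : Fin ρ → MvPolynomial (Fin n) ℂ} {ε : Fin ρ → ℝ}

theorem wP3_mul (A B : Submodule ℂ (MvPolynomial (Fin n) ℂ)) [FiniteDimensional ℂ A]
    [FiniteDimensional ℂ B] : finrank ℂ (A * B : Submodule ℂ (MvPolynomial (Fin n) ℂ)) ≤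
      finrank ℂ A * finrank ℂ B := by
  rw [← Submodule.mulMap_range]
  refine (LinearMap.finrank_range_le _).trans ?_
  rw [Module.finrank_tensorProduct]

theorem wP3_fd (A B : Submodule ℂ (MvPolynomial (Fin n) ℂ)) [FiniteDimensional ℂ A]
    [FiniteDimensional ℂ B] :
    FiniteDimensional ℂ (A * B : Submodule ℂ (MvPolynomial (Fin n) ℂ)) := by
  have hA : A.FG := Module.Finite.iff_fg.mp inferInstance
  have hB : B.FG := Module.Finite.iff_fg.mp inferInstance
  exact Module.Finite.iff_fg.mpr (hA.mul hB)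

/-- the linear map `a ↦ lf a` -/
noncomputable def wP3_lf (n : ℕ) : (Fin n → ℂ) →ₗ[ℂ] MvPolynomial (Fin n) ℂ :=
  Fintype.linearCombination ℂ X

theorem wP3_lf_apply (a : Fin n → ℂ) : wP3_lf n a = lf a := by
  simp [wP3_lf, Fintype.linearCombination_apply, lf, smul_eq_C_mul]

theorem wP3_lf_inj : Function.Injective (wP3_lf n) := by
  rw [← LinearMap.ker_eq_bot, Submodule.eq_bot_iff]
  intro a ha
  rw [LinearMap.mem_ker, wP3_lf_apply] at ha
  by_contra h
  exact lf_ne_zero h ha

theorem wP3_sq (Λ : Submodule ℂ (MvPolynomial (Fin n) ℂ)) [FiniteDimensional ℂ Λ] :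
    finrank ℂ (Λ * Λ : Submodule ℂ (MvPolynomial (Fin n) ℂ)) ≤ (finrank ℂ Λ + 1).choose 2 := by
  classical
  let b := Module.finBasis ℂ Λ
  let v : Fin (finrank ℂ Λ) → MvPolynomial (Fin n) ℂ := fun i => (b i : MvPolynomial (Fin n) ℂ)
  have hv : Submodule.span ℂ (Set.range v) = Λ := by
    have h1 := b.span_eq
    have h2 := congrArg (Submodule.map Λ.subtype) h1
    rw [Submodule.map_span, Submodule.map_top, Submodule.range_subtype, ← Set.range_comp] at h2
    exact h2
  let w : Sym2 (Fin (finrank ℂ Λ)) → MvPolynomial (Fin n) ℂ :=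
    Sym2.lift ⟨fun i j => v i * v j, fun i j => mul_comm _ _⟩
  have h3 : (Λ * Λ : Submodule ℂ (MvPolynomial (Fin n) ℂ)) ≤ Submodule.span ℂ (Set.range w) := by
    conv_lhs => rw [← hv]
    rw [Submodule.span_mul_span, Submodule.span_le]
    rintro _ ⟨_, ⟨i, rfl⟩, _, ⟨j, rfl⟩, rfl⟩
    exact Submodule.subset_span ⟨s(i, j), rfl⟩
  have : FiniteDimensional ℂ (Submodule.span ℂ (Set.range w)) :=
    FiniteDimensional.span_of_finite ℂ (Set.finite_range w)
  refine (Submodule.finrank_mono h3).trans ?_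
  refine (finrank_range_le_card (R := ℂ) w).trans ?_
  rw [Sym2.card, Fintype.card_fin]

theorem wP3_compl {E : Type*} [AddCommGroup E] [Module ℂ E] (K Y : Submodule ℂ E)
    [FiniteDimensional ℂ Y] (h : K ≤ Y) :
    ∃ Z : Submodule ℂ E, Z ≤ Y ∧ K ⊔ Z = Y ∧ finrank ℂ K + finrank ℂ Z = finrank ℂ Y := by
  obtain ⟨C, hC⟩ := Submodule.exists_isCompl (K.comap Y.subtype)
  refine ⟨C.map Y.subtype, ?_, ?_, ?_⟩
  · exact Submodule.map_subtype_le _ _
  · have h1 : K = (K.comap Y.subtype).map Y.subtype := by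
      rw [Submodule.map_comap_subtype, inf_eq_right.2 h]
    conv_lhs => rw [h1]
    rw [← Submodule.map_sup, hC.sup_eq_top, Submodule.map_top, Submodule.range_subtype]
  · have h1 := Submodule.finrank_add_eq_of_isCompl hC
    rw [← h1]
    congr 1
    · have h2 : K = (K.comap Y.subtype).map Y.subtype := by
        rw [Submodule.map_comap_subtype, inf_eq_right.2 h]
      conv_lhs => rw [h2]
      exact Submodule.finrank_map_subtype_eq _ _
    · exact Submodule.finrank_map_subtype_eq _ _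

theorem wP3_Yf (s : Setting n m D ρ p A V f ε) :
    Submodule.span ℂ (f '' {k | ε k = -1}) ⊔ Submodule.span ℂ (f '' {k | ε k = 1}) = Yf f := by
  rw [← Submodule.span_union, ← Set.image_union, Yf, ← Set.image_univ]
  congr 2
  ext k
  simp only [Set.mem_union, Set.mem_ofPred_eq, Set.mem_univ, iff_true]
  rcases s.hε k with h | h
  · right; exact h
  · left; exact h

theorem wP3_card (f : Fin ρ → MvPolynomial (Fin n) ℂ) (ε : Fin ρ → ℝ) :
    finrank ℂ (Submodule.span ℂ (f '' {k | ε k = 1})) + beta ε ≤ ρ := by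
  classical
  have h1 : finrank ℂ (Submodule.span ℂ (f '' {k | ε k = 1})) ≤
      (Finset.univ.filter fun k => ε k = 1).card := by
    have h2 : f '' {k | ε k = 1} = ((Finset.univ.filter fun k => ε k = 1).image f :
        Finset (MvPolynomial (Fin n) ℂ)) := by
      ext x
      simp
    rw [h2]
    refine (finrank_span_finset_le_card _).trans ?_
    exact Finset.card_image_le
  have h2 : beta ε = (Finset.univ.filter fun k => ε k = -1).card := by
    rw [beta, Nat.card_eq_fintype_card, Fintype.card_subtype]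
  have h3 : (Finset.univ.filter fun k => ε k = 1).card +
      (Finset.univ.filter fun k => ε k = -1).card ≤ ρ := by
    rw [← Finset.card_union_of_disjoint]
    · refine (Finset.card_le_univ _).trans ?_
      rw [Fintype.card_fin]
    · rw [Finset.disjoint_filter]
      intro k _ h4 h5
      rw [h4] at h5
      norm_num at h5
  omega

theorem wP3_pr (s : Setting n m D ρ p A V f ε) {h : MvPolynomial (Fin n) ℂ} (hh : h ≠ 0)
    (L : Submodule ℂ (Fin n → ℂ)) (hL : ∀ a ∈ L, lf a * h ∈ Yf f) :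
    finrank ℂ (S1 (Yf f)) + (finrank ℂ L).choose 2 + (n - finrank ℂ L) * beta ε ≤ n * ρ := by
  classical
  obtain ⟨L', hL'⟩ := Submodule.exists_isCompl L
  have hdim := Submodule.finrank_add_eq_of_isCompl hL'
  rw [Module.finrank_fin_fun] at hdim
  set Λ := L.map (wP3_lf n) with hΛ
  set Λ' := L'.map (wP3_lf n) with hΛ'
  have : FiniteDimensional ℂ (Yf f) := FiniteDimensional.span_of_finite ℂ (Set.finite_range f)
  have hY : finrank ℂ (Yf f) = ρ := by
    rw [Yf, finrank_span_eq_card s.hf, Fintype.card_fin]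
  set Yp := Submodule.span ℂ (f '' {k | ε k = 1}) with hYp
  have hYpY : Yp ≤ Yf f := by
    rw [← wP3_Yf s]; exact le_sup_right
  have : FiniteDimensional ℂ Yp := Submodule.finiteDimensional_of_le hYpY
  have hL1 : L1 n = Λ ⊔ Λ' := by
    rw [hΛ, hΛ', ← Submodule.map_sup, hL'.sup_eq_top, Submodule.map_top]
    ext x
    rw [mem_L1_iff, LinearMap.mem_range]
    constructor
    · rintro ⟨a, rfl⟩
      exact ⟨a, wP3_lf_apply a⟩
    · rintro ⟨a, rfl⟩
      exact ⟨a, wP3_lf_apply a⟩
  have hdΛ : finrank ℂ Λ = finrank ℂ L := (LinearEquiv.finrank_eq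
    (Submodule.equivMapOfInjective _ wP3_lf_inj L)).symm
  have hdΛ' : finrank ℂ Λ' = finrank ℂ L' := (LinearEquiv.finrank_eq
    (Submodule.equivMapOfInjective _ wP3_lf_inj L')).symm
  -- S1 Y = S1 Yp
  have hS1 : S1 (Yf f) ≤ Λ * Yf f ⊔ Λ' * Yp := by
    have h1 : S1 (Yf f) ≤ S1 Yp := by
      rw [← wP3_Yf s]
      unfold S1
      rw [Submodule.mul_sup]
      exact sup_le (wP0 s) le_rfl
    refine h1.trans ?_
    unfold S1
    rw [hL1, Submodule.sup_mul]
    exact sup_le_sup (mul_le_mul' le_rfl hYpY) le_rfl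
  -- K = h Λ
  set K := Λ * Submodule.span ℂ {h} with hK
  have hKY : K ≤ Yf f := by
    rw [hK, Submodule.mul_le]
    rintro _ ⟨a, ha, rfl⟩ x hx
    obtain ⟨c, rfl⟩ := Submodule.mem_span_singleton.1 hx
    rw [mul_smul_comm, wP3_lf_apply]
    exact Submodule.smul_mem _ _ (hL a ha)
  have hKd : finrank ℂ K = finrank ℂ L := by
    have h1 : K = Λ.map (LinearMap.mulRight ℂ h) := by
      rw [hK]
      apply le_antisymm
      · rw [Submodule.mul_le]
        intro l hl x hx
        obtain ⟨c, rfl⟩ := Submodule.mem_span_singleton.1 hx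
        refine ⟨c • l, Submodule.smul_mem _ _ hl, ?_⟩
        rw [LinearMap.mulRight_apply, mul_smul_comm, smul_mul_assoc]
      · rintro _ ⟨l, hl, rfl⟩
        rw [LinearMap.mulRight_apply]
        exact Submodule.mul_mem_mul hl (Submodule.mem_span_singleton_self h)
    have h2 : Function.Injective (LinearMap.mulRight ℂ h) := by
      intro x y hxy
      rw [LinearMap.mulRight_apply, LinearMap.mulRight_apply] at hxy
      exact mul_right_cancel₀ hh hxy
    rw [h1, ← hdΛ]
    exact (LinearEquiv.finrank_eq (Submodule.equivMapOfInjective _ h2 Λ)).symm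
  obtain ⟨Z, hZY, hKZ, hZd⟩ := wP3_compl K (Yf f) hKY
  have : FiniteDimensional ℂ Z := Submodule.finiteDimensional_of_le hZY
  have : FiniteDimensional ℂ K := Submodule.finiteDimensional_of_le hKY
  have : FiniteDimensional ℂ (Λ * K : Submodule ℂ (MvPolynomial (Fin n) ℂ)) := wP3_fd _ _
  have : FiniteDimensional ℂ (Λ * Z : Submodule ℂ (MvPolynomial (Fin n) ℂ)) := wP3_fd _ _
  have : FiniteDimensional ℂ (Λ * Yf f : Submodule ℂ (MvPolynomial (Fin n) ℂ)) := wP3_fd _ _
  have : FiniteDimensional ℂ (Λ' * Yp : Submodule ℂ (MvPolynomial (Fin n) ℂ)) := wP3_fd _ _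
  have : FiniteDimensional ℂ (Λ * Λ : Submodule ℂ (MvPolynomial (Fin n) ℂ)) := wP3_fd _ _
  -- bound for Λ Y
  have hb1 : finrank ℂ (Λ * Yf f : Submodule ℂ (MvPolynomial (Fin n) ℂ)) ≤
      (finrank ℂ L + 1).choose 2 + finrank ℂ L * finrank ℂ Z := by
    rw [← hKZ, Submodule.mul_sup]
    refine (Submodule.finrank_add_le_finrank_add_finrank _ _).trans ?_
    refine add_le_add ?_ ?_
    · rw [hK, ← mul_assoc]
      refine (wP3_mul _ _).trans ?_
      have h1 : finrank ℂ (Submodule.span ℂ {h}) = 1 := finrank_span_singleton hh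
      rw [h1, mul_one, ← hdΛ]
      exact wP3_sq Λ
    · rw [← hdΛ]
      exact wP3_mul _ _
  have hb2 : finrank ℂ (Λ' * Yp : Submodule ℂ (MvPolynomial (Fin n) ℂ)) ≤
      finrank ℂ L' * finrank ℂ Yp := by
    rw [← hdΛ']
    exact wP3_mul _ _
  have hb3 : finrank ℂ (S1 (Yf f)) ≤
      (finrank ℂ L + 1).choose 2 + finrank ℂ L * finrank ℂ Z + finrank ℂ L' * finrank ℂ Yp := by
    refine (Submodule.finrank_mono hS1).trans ?_
    refine (Submodule.finrank_add_le_finrank_add_finrank _ _).trans ?_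
    exact add_le_add hb1 hb2
  have hc := wP3_card f ε
  have e1 : (finrank ℂ L + 1).choose 2 = (finrank ℂ L).choose 2 + finrank ℂ L := by
    rw [Nat.choose_succ_succ' _ 1, Nat.choose_one_right, add_comm]
  have e2 : 2 * (finrank ℂ L).choose 2 + finrank ℂ L = finrank ℂ L * finrank ℂ L := by
    generalize finrank ℂ L = a
    induction a with
    | zero => simp
    | succ a ih =>
      rw [Nat.choose_succ_succ' _ 1, Nat.choose_one_right]
      nlinarith
  rw [hKd, hY] at hZd
  have e3 : n - finrank ℂ L = finrank ℂ L' := by omega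
  rw [e3]
  have e4 : finrank ℂ L' * finrank ℂ Yp + finrank ℂ L' * beta ε ≤ finrank ℂ L' * ρ := by
    rw [← mul_add]
    exact Nat.mul_le_mul_left _ hc
  have e5 : finrank ℂ L * finrank ℂ L + finrank ℂ L * finrank ℂ Z = finrank ℂ L * ρ := by
    rw [← mul_add, hZd]
  have e6 : n * ρ = finrank ℂ L * ρ + finrank ℂ L' * ρ := by
    rw [← add_mul, hdim]
  omega

end Pool.Agent.Lib_helper97.Ebe
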