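import Pool.Agent.Lib_helper21.Ebe.wP3

namespace Pool.Agent.Lib_helper97.Ebe

open MvPolynomial Module Pool.Agent.Lib_helper26.Ebe Pool.Agent.Lib_helper26.SOS

variable {n m D ρ : ℕ} {p : Fin m → MvPolynomial (Fin n) ℂ}
    {A : MvPolynomial (Fin n ⊕ Fin n) ℂ} {V : Submodule ℂ (MvPolynomial (Fin n) ℂ)}
    {f : Fin ρ → MvPolynomial (Fin n) ℂ} {ε : Fin ρ → ℝ}

theorem wStar_S1 (U : Submodule ℂ (MvPolynomial (Fin n) ℂ)) [FiniteDimensional ℂ U]
    {h : MvPolynomial (Fin n) ℂ} (hh : h ≠ 0)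
    (L : Submodule ℂ (Fin n → ℂ)) (hL : ∀ a ∈ L, lf a * h ∈ U) :
    finrank ℂ (S1 U) + (finrank ℂ L).choose 2 ≤ n * finrank ℂ U := by
  classical
  obtain ⟨L', hL'⟩ := Submodule.exists_isCompl L
  have hdim := Submodule.finrank_add_eq_of_isCompl hL'
  rw [Module.finrank_fin_fun] at hdim
  set Λ := L.map (wP3_lf n) with hΛ
  set Λ' := L'.map (wP3_lf n) with hΛ'
  have hL1 : L1 n = Λ ⊔ Λ' := by
    rw [hΛ, hΛ', ← Submodule.map_sup, hL'.sup_eq_top, Submodule.map_top]
    ext x
    rw [mem_L1_iff, LinearMap.mem_range]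
    constructor
    · rintro ⟨a, rfl⟩
      exact ⟨a, wP3_lf_apply a⟩
    · rintro ⟨a, rfl⟩
      exact ⟨a, wP3_lf_apply a⟩
  have hdΛ : finrank ℂ Λ = finrank ℂ L := (LinearEquiv.finrank_eq
    (Submodule.equivMapOfInjective _ wP3_lf_inj L)).symm
  have hdΛ' : finrank ℂ Λ' = finrank ℂ L' := (LinearEquiv.finrank_eq
    (Submodule.equivMapOfInjective _ wP3_lf_inj L')).symm
  have hfL : FiniteDimensional ℂ (L1 n) :=
    Module.Finite.iff_fg.mpr (Submodule.fg_span (Set.finite_range _))
  have hL1d : finrank ℂ (L1 n) ≤ n := by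
    have h1 := finrank_range_le_card (R := ℂ) (X : Fin n → MvPolynomial (Fin n) ℂ)
    rw [Fintype.card_fin] at h1
    exact h1
  set K := Λ * Submodule.span ℂ {h} with hK
  have hKY : K ≤ U := by
    rw [hK, Submodule.mul_le]
    rintro _ ⟨a, ha, rfl⟩ x hx
    obtain ⟨c, rfl⟩ := Submodule.mem_span_singleton.1 hx
    rw [mul_smul_comm, wP3_lf_apply]
    exact Submodule.smul_mem _ _ (hL a ha)
  have hKd : finrank ℂ K = finrank ℂ L := by
    have h1 : K = Λ.map (LinearMap.mulRight ℂ h) := by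
      rw [hK]
      apply le_antisymm
      · rw [Submodule.mul_le]
        intro l hl x hx
        obtain ⟨c, rfl⟩ := Submodule.mem_span_singleton.1 hx
        refine ⟨c • l, Submodule.smul_mem _ _ hl, ?_⟩
        rw [LinearMap.mulRight_apply, mul_smul_comm, smul_mul_assoc]
      · rintro _ ⟨l, hl, rfl⟩
        rw [LinearMap.mulRight_apply]
        exact Submodule.mul_mem_mul hl (Submodule.mem_span_singleton_self h)
    have h2 : Function.Injective (LinearMap.mulRight ℂ h) := by
      intro x y hxy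
      rw [LinearMap.mulRight_apply, LinearMap.mulRight_apply] at hxy
      exact mul_right_cancel₀ hh hxy
    rw [h1, ← hdΛ]
    exact (LinearEquiv.finrank_eq (Submodule.equivMapOfInjective _ h2 Λ)).symm
  obtain ⟨Z, hZY, hKZ, hZd⟩ := wP3_compl K U hKY
  have : FiniteDimensional ℂ Z := Submodule.finiteDimensional_of_le hZY
  have : FiniteDimensional ℂ K := Submodule.finiteDimensional_of_le hKY
  have : FiniteDimensional ℂ (Λ * Λ : Submodule ℂ (MvPolynomial (Fin n) ℂ)) := wP3_fd _ _
  have : FiniteDimensional ℂ (Λ' * Λ : Submodule ℂ (MvPolynomial (Fin n) ℂ)) := wP3_fd _ _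
  have : FiniteDimensional ℂ (L1 n * Λ : Submodule ℂ (MvPolynomial (Fin n) ℂ)) := wP3_fd _ _
  have : FiniteDimensional ℂ (L1 n * K : Submodule ℂ (MvPolynomial (Fin n) ℂ)) := wP3_fd _ _
  have : FiniteDimensional ℂ (L1 n * Z : Submodule ℂ (MvPolynomial (Fin n) ℂ)) := wP3_fd _ _
  have hb0 : finrank ℂ (L1 n * Λ : Submodule ℂ (MvPolynomial (Fin n) ℂ)) ≤
      (finrank ℂ L + 1).choose 2 + finrank ℂ L' * finrank ℂ L := by
    rw [hL1, Submodule.sup_mul]
    refine (Submodule.finrank_add_le_finrank_add_finrank _ _).trans (add_le_add ?_ ?_)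
    · rw [← hdΛ]; exact wP3_sq Λ
    · rw [← hdΛ, ← hdΛ']; exact wP3_mul _ _
  have hb1 : finrank ℂ (S1 U) ≤
      (finrank ℂ L + 1).choose 2 + finrank ℂ L' * finrank ℂ L + n * finrank ℂ Z := by
    unfold S1
    rw [← hKZ, Submodule.mul_sup]
    refine (Submodule.finrank_add_le_finrank_add_finrank _ _).trans (add_le_add ?_ ?_)
    · rw [hK, ← mul_assoc]
      refine (wP3_mul _ _).trans ?_
      have h1 : finrank ℂ (Submodule.span ℂ {h}) = 1 := finrank_span_singleton hh
      rw [h1, mul_one]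
      exact hb0
    · exact (wP3_mul _ _).trans (Nat.mul_le_mul_right _ hL1d)
  have e1 : (finrank ℂ L + 1).choose 2 = (finrank ℂ L).choose 2 + finrank ℂ L := by
    rw [Nat.choose_succ_succ' _ 1, Nat.choose_one_right, add_comm]
  have e2 : 2 * (finrank ℂ L).choose 2 + finrank ℂ L = finrank ℂ L * finrank ℂ L := by
    generalize finrank ℂ L = a
    induction a with
    | zero => simp
    | succ a ih =>
      rw [Nat.choose_succ_succ' _ 1, Nat.choose_one_right]
      nlinarith
  rw [hKd] at hZd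
  have e3 : n * finrank ℂ U = n * finrank ℂ L + n * finrank ℂ Z := by
    rw [← mul_add, hZd]
  have e4 : n * finrank ℂ L = finrank ℂ L * finrank ℂ L + finrank ℂ L' * finrank ℂ L := by
    rw [← add_mul, hdim]
  omega

/-- a star in `Y` meets the positive part in codimension at most `β` -/
theorem wStar_pr (s : Setting n m D ρ p A V f ε) {h : MvPolynomial (Fin n) ℂ} (hh : h ≠ 0)
    (L : Submodule ℂ (Fin n → ℂ)) (hL : ∀ a ∈ L, lf a * h ∈ Yf f) :
    finrank ℂ (S1 (Yf f)) + n * beta ε + (finrank ℂ L - beta ε).choose 2 ≤ n * ρ := by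
  classical
  have : FiniteDimensional ℂ (Yf f) := FiniteDimensional.span_of_finite ℂ (Set.finite_range f)
  have hY : finrank ℂ (Yf f) = ρ := by
    rw [Yf, finrank_span_eq_card s.hf, Fintype.card_fin]
  set Yp := Submodule.span ℂ (f '' {k | ε k = 1}) with hYp
  have hYpY : Yp ≤ Yf f := by
    rw [← wP3_Yf s]; exact le_sup_right
  have : FiniteDimensional ℂ Yp := Submodule.finiteDimensional_of_le hYpY
  have hS1 : S1 (Yf f) ≤ S1 Yp := by
    rw [← wP3_Yf s]
    unfold S1
    rw [Submodule.mul_sup]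
    exact sup_le (wP0 s) le_rfl
  -- dim Yp = ρ - β at least (dimension of the negative part ≤ β)
  have hneg : finrank ℂ (Submodule.span ℂ (f '' {k | ε k = -1})) ≤ beta ε := by
    have h2 : f '' {k | ε k = -1} = ((Finset.univ.filter fun k => ε k = -1).image f :
        Finset (MvPolynomial (Fin n) ℂ)) := by
      ext x
      simp
    rw [h2]
    refine (finrank_span_finset_le_card _).trans ?_
    rw [beta, Nat.card_eq_fintype_card, Fintype.card_subtype]
    exact Finset.card_image_le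
  have hpos : ρ ≤ finrank ℂ Yp + beta ε := by
    have hfn : FiniteDimensional ℂ (Submodule.span ℂ (f '' {k | ε k = -1})) :=
      FiniteDimensional.span_of_finite ℂ (Set.toFinite _)
    have h1 := Submodule.finrank_add_le_finrank_add_finrank
      (Submodule.span ℂ (f '' {k | ε k = -1})) Yp
    rw [hYp, wP3_Yf s, hY] at h1
    rw [hYp]
    omega
  -- L_+
  let φ : (Fin n → ℂ) →ₗ[ℂ] MvPolynomial (Fin n) ℂ := (LinearMap.mulRight ℂ h).comp (wP3_lf n)
  let Lp : Submodule ℂ (Fin n → ℂ) := L ⊓ Yp.comap φ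
  have hLp : ∀ a ∈ Lp, lf a * h ∈ Yp := by
    rintro a ⟨_, ha⟩
    have : φ a ∈ Yp := ha
    simpa [φ, wP3_lf_apply] using this
  have hLpd : finrank ℂ L ≤ finrank ℂ Lp + beta ε := by
    -- the map L → Y / Yp
    let Q := (Yf f).map Yp.mkQ
    have hQ : finrank ℂ Q + finrank ℂ Yp = ρ := by
      have h1 := LinearMap.finrank_range_add_finrank_ker (Yp.mkQ.domRestrict (Yf f))
      have h2 : LinearMap.range (Yp.mkQ.domRestrict (Yf f)) = Q := by
        rw [LinearMap.range_domRestrict]
      have h3 : finrank ℂ (LinearMap.ker (Yp.mkQ.domRestrict (Yf f))) = finrank ℂ Yp := by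
        have h4 : LinearMap.ker (Yp.mkQ.domRestrict (Yf f)) = Yp.comap (Yf f).subtype := by
          rw [LinearMap.ker_domRestrict, Submodule.ker_mkQ]
        rw [h4, ← Submodule.finrank_map_subtype_eq, Submodule.map_comap_subtype,
          inf_eq_right.2 hYpY]
      rw [h2, h3, hY] at h1
      exact h1
    have hψ := LinearMap.finrank_range_add_finrank_ker ((Yp.mkQ.comp φ).domRestrict L)
    have h5 : LinearMap.range ((Yp.mkQ.comp φ).domRestrict L) ≤ Q := by
      rintro _ ⟨⟨a, ha⟩, rfl⟩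
      refine ⟨φ a, ?_, rfl⟩
      have := hL a ha
      simpa [φ, wP3_lf_apply] using this
    have : FiniteDimensional ℂ Q := inferInstance
    have h6 := Submodule.finrank_mono h5
    have h7 : finrank ℂ (LinearMap.ker ((Yp.mkQ.comp φ).domRestrict L)) = finrank ℂ Lp := by
      have h4 : LinearMap.ker ((Yp.mkQ.comp φ).domRestrict L) =
          (Yp.comap φ).comap L.subtype := by
        rw [LinearMap.ker_domRestrict, LinearMap.ker_comp, Submodule.ker_mkQ]
      rw [h4, ← Submodule.finrank_map_subtype_eq, Submodule.map_comap_subtype]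
    rw [h7] at hψ
    have hb : finrank ℂ Q ≤ beta ε := by omega
    omega
  have hmain := wStar_S1 Yp hh Lp hLp
  have hmono := Submodule.finrank_mono hS1
  have hcard := wP3_card f ε
  have hch : (finrank ℂ L - beta ε).choose 2 ≤ (finrank ℂ Lp).choose 2 :=
    Nat.choose_le_choose 2 (by omega)
  have hfin : n * finrank ℂ Yp + n * beta ε ≤ n * ρ := by
    rw [← mul_add]
    exact Nat.mul_le_mul_left _ hcard
  omega

end Pool.Agent.Lib_helper97.Ebe
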